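import Pool.Agent.H28.RC.Targets1

/-!
# L-functions of ray class characters: uniqueness, conjugation, functional equation, growth
-/

set_option autoImplicit false

open NumberField NumberField.InfinitePlace NumberField.Units
  NumberField.Units.dirichletUnitTheorem MeasureTheory Set Filter Complex
open scoped nonZeroDivisors ENNReal Topology

namespace Pool.Agent.H20.HKI

open Pool.Agent.H28.RC Pool.Agent.H25.HK Pool.Agent.H25

lemma Gammaℂ_eq (s : ℂ) : Gammaℂ s = Gammaℝ s * Gammaℝ (s + 1) :=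
  (Gammaℝ_mul_Gammaℝ_add_one s).symm

/-! ### Uniqueness of the continuation -/

lemma eq_half {Z L : ℂ → ℂ} {U : Set ℂ} (hU : IsOpen U) (hc : IsPreconnected U) {z₀ : ℂ}
    (hz : z₀ ∈ U) (hz1 : 1 < z₀.re) (hZ : ∀ s ∈ U, DifferentiableAt ℂ Z s)
    (hL : Differentiable ℂ L) (h : ∀ s : ℂ, 1 < s.re → Z s = L s) : EqOn Z L U := by
  have h1 : AnalyticOnNhd ℂ Z U := DifferentiableOn.analyticOnNhd
    (fun s hs => (hZ s hs).differentiableWithinAt) hU
  have h2 : AnalyticOnNhd ℂ L U := hL.differentiableOn.analyticOnNhd hU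
  refine h1.eqOn_of_preconnected_of_eventuallyEq h2 hc hz ?_
  filter_upwards [(isOpen_lt continuous_const continuous_re).mem_nhds hz1] with s hs
  exact h s hs

lemma eq_off {Z L : ℂ → ℂ} (hZ : ∀ s : ℂ, s.im ≠ 0 → DifferentiableAt ℂ Z s)
    (hL : Differentiable ℂ L) (h : ∀ s : ℂ, 1 < s.re → Z s = L s) (s : ℂ) (hs : s.im ≠ 0) :
    Z s = L s := by
  rcases lt_or_gt_of_ne hs with h1 | h1
  · refine eq_half (U := {s : ℂ | s.im < 0}) (z₀ := 2 - I)
      (isOpen_lt continuous_im continuous_const) ?_ ?_ ?_ (fun s hs => hZ s (ne_of_lt hs)) hL h h1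
    · exact (convex_halfSpace_im_lt 0).isPreconnected
    · simp
    · simp
  · refine eq_half (U := {s : ℂ | 0 < s.im}) (z₀ := 2 + I)
      (isOpen_lt continuous_const continuous_im) ?_ ?_ ?_ (fun s hs => hZ s (ne_of_gt hs)) hL h h1
    · exact (convex_halfSpace_im_gt 0).isPreconnected
    · simp
    · simp

/-! ### Conjugation -/

lemma nat_cpow_conj (n : ℕ) (s : ℂ) :
    (starRingEnd ℂ) ((n : ℂ) ^ ((starRingEnd ℂ) s)) = (n : ℂ) ^ s := by
  have h := cpow_conj (n : ℂ) s (by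
    rw [Complex.natCast_arg]
    exact Real.pi_pos.ne)
  rw [Complex.conj_natCast] at h
  rw [h, Complex.conj_conj]

section

variable {K : Type} [Field K] [NumberField K]

lemma Lc_bar (χ : RCC K) (s : ℂ) : Lc χ.bar s = (starRingEnd ℂ) (Lc χ ((starRingEnd ℂ) s)) := by
  unfold Lc
  rw [Complex.conj_tsum]
  refine tsum_congr fun I => ?_
  rw [map_mul]
  have h : -(starRingEnd ℂ) s = (starRingEnd ℂ) (-s) := (map_neg _ _).symm
  rw [h, nat_cpow_conj]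
  rfl

lemma gS_bar (χ : RCC K) (s : ℂ) : gS χ.bar s = gS χ s := rfl

lemma Gammaℝ_conj' (s : ℂ) : Gammaℝ ((starRingEnd ℂ) s) = (starRingEnd ℂ) (Gammaℝ s) := by
  rw [Gammaℝ_def, Gammaℝ_def, map_mul, ← Gamma_conj]
  congr 1
  · have h1 : -(starRingEnd ℂ) s / 2 = (starRingEnd ℂ) (-s / 2) := by
      rw [map_div₀, map_neg, map_ofNat]
    rw [h1, cpow_conj _ _ (by
      rw [Complex.arg_ofReal_of_nonneg Real.pi_pos.le]; exact Real.pi_pos.ne), conj_ofReal]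
  · congr 1
    rw [map_div₀, map_ofNat]

lemma gS_conj (χ : RCC K) (s : ℂ) : gS χ ((starRingEnd ℂ) s) = (starRingEnd ℂ) (gS χ s) := by
  unfold gS
  rw [Gammaℂ_eq, Gammaℂ_eq]
  have h : (starRingEnd ℂ) s + 1 = (starRingEnd ℂ) (s + 1) := by rw [map_add, map_one]
  rw [h, Gammaℝ_conj', Gammaℝ_conj']
  simp only [map_mul, map_pow]

/-- the conjugate function -/
noncomputable def cj (L : ℂ → ℂ) (s : ℂ) : ℂ := (starRingEnd ℂ) (L ((starRingEnd ℂ) s))

lemma cj_diff {L : ℂ → ℂ} (hL : Differentiable ℂ L) : Differentiable ℂ (cj L) := fun s => by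
  have h : DifferentiableAt ℂ L ((starRingEnd ℂ) s) := hL _
  have h1 := DifferentiableAt.conj_conj h
  rw [Complex.conj_conj] at h1
  exact h1

lemma cj_eq (χ : RCC K) {L : ℂ → ℂ} (h : ∀ s : ℂ, 1 < s.re → L s = Lc χ s) (s : ℂ)
    (hs : 1 < s.re) : cj L s = Lc χ.bar s := by
  unfold cj
  rw [Lc_bar, h _ (by rwa [conj_re])]

/-! ### The functional equation -/

lemma gS_inv_diff' (χ : RCC K) : Differentiable ℂ fun s => (gS χ s)⁻¹ := by
  have h1 : (fun s => (gS χ s)⁻¹) = fun s => (Gammaℝ s)⁻¹ ^ (nrRealPlaces K - χ.S.card) *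
      (Gammaℝ (s + 1))⁻¹ ^ χ.S.card *
      ((Gammaℝ s)⁻¹ * (Gammaℝ (s + 1))⁻¹) ^ nrComplexPlaces K := by
    funext s
    unfold gS
    rw [Gammaℂ_eq, mul_inv, mul_inv, inv_pow, inv_pow,
      ← inv_pow (Gammaℝ s * Gammaℝ (s + 1)), mul_inv]
  rw [h1]
  have h2 : Differentiable ℂ fun s => (Gammaℝ s)⁻¹ := differentiable_Gammaℝ_inv
  have h3 : Differentiable ℂ fun s => (Gammaℝ (s + 1))⁻¹ :=
    h2.comp (differentiable_id.add_const 1)
  exact ((h2.pow _).mul (h3.pow _)).mul ((h2.mul h3).pow _)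

lemma gS_ne_im (χ : RCC K) {s : ℂ} (hs : s.im ≠ 0) : gS χ s ≠ 0 := by
  unfold gS
  rw [Gammaℂ_eq]
  have hR : ∀ w : ℂ, w.im ≠ 0 → Gammaℝ w ≠ 0 := by
    intro w hw h
    rw [Gammaℝ_eq_zero_iff] at h
    obtain ⟨n, hn⟩ := h
    apply hw
    rw [hn]
    simp
  have h1 := hR s hs
  have h2 : Gammaℝ (s + 1) ≠ 0 := hR (s + 1) (by simpa using hs)
  exact mul_ne_zero (mul_ne_zero (pow_ne_zero _ h1) (pow_ne_zero _ h2))
    (pow_ne_zero _ (mul_ne_zero h1 h2))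

/-- the conductor -/
noncomputable def Nc (χ : RCC K) : ℕ := (discr K).natAbs * Ideal.absNorm χ.f

lemma Nc_ne (χ : RCC K) : Nc χ ≠ 0 := by
  unfold Nc
  refine mul_ne_zero (Int.natAbs_ne_zero.2 (discr_ne_zero K)) ?_
  rw [Ne, Ideal.absNorm_eq_zero_iff]
  exact χ.f_ne

lemma Nc_cast (χ : RCC K) :
    ((|(discr K : ℝ)| * (Ideal.absNorm χ.f : ℝ) : ℝ) : ℂ) = (Nc χ : ℂ) := by
  unfold Nc
  have h : |(discr K : ℝ)| = ((discr K).natAbs : ℝ) := by
    rw [Nat.cast_natAbs, Int.cast_abs]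
  rw [h]
  push_cast
  rfl

lemma dense_im : Dense {s : ℂ | s.im ≠ 0} := by
  have h : {s : ℂ | s.im ≠ 0} = (Complex.im ⁻¹' {0})ᶜ := rfl
  rw [h]
  have h1 : Dense (({0} : Set ℝ)ᶜ) := dense_compl_singleton 0
  have h2 : (Complex.im ⁻¹' {0})ᶜ = Complex.im ⁻¹' (({0} : Set ℝ)ᶜ) := rfl
  rw [h2]
  exact h1.preimage Complex.isOpenMap_im

/-- The functional equation at all points. -/
theorem fe (hHE : T_HEc) (χ : RCC K) {L : ℂ → ℂ} (hL : Differentiable ℂ L)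
    (h : ∀ s : ℂ, 1 < s.re → L s = Lc χ s) : ∃ ε : ℂ, ‖ε‖ = 1 ∧ ∀ s : ℂ,
      (gS χ (1 - s))⁻¹ * L s =
        ε * (Nc χ : ℂ) ^ (1 / 2 - s) * ((gS χ s)⁻¹ * (starRingEnd ℂ) (L (1 - (starRingEnd ℂ) s))) := by
  obtain ⟨Z, Z', ε, ⟨hZ1, hZ2⟩, ⟨hZ3, hZ4⟩, hε, hfe, -⟩ := hHE K χ
  refine ⟨ε, hε, ?_⟩
  have e1 : ∀ s : ℂ, s.im ≠ 0 → Z s = L s :=
    eq_off hZ1 hL fun s hs => by rw [hZ2 s hs, h s hs]
  have e2 : ∀ s : ℂ, s.im ≠ 0 → Z' s = cj L s :=
    eq_off hZ3 (cj_diff hL) fun s hs => by rw [hZ4 s hs, cj_eq χ h s hs]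
  have hN : (Nc χ : ℂ) ≠ 0 := by exact_mod_cast Nc_ne χ
  have key : ∀ s ∈ {s : ℂ | s.im ≠ 0}, (gS χ (1 - s))⁻¹ * L s =
      ε * (Nc χ : ℂ) ^ (1 / 2 - s) * ((gS χ s)⁻¹ * cj L (1 - s)) := by
    intro s hs
    have hs0 : s.im ≠ 0 := hs
    have hs' : (1 - s).im ≠ 0 := by simpa using hs0
    have h1 := hfe s hs0
    unfold compc at h1
    rw [e1 s hs0, e2 _ hs', gS_bar] at h1
    have h2 : ((|(discr K : ℝ)| * (Ideal.absNorm χ.bar.f : ℝ) : ℝ) : ℂ) = (Nc χ : ℂ) := Nc_cast χ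
    rw [h2, Nc_cast] at h1
    have h3 : (Nc χ : ℂ) ^ (1 / 2 - s) = (Nc χ : ℂ) ^ ((1 - s) / 2) / (Nc χ : ℂ) ^ (s / 2) := by
      rw [← cpow_sub _ _ hN]
      congr 1
      ring
    have g1 := gS_ne_im χ hs0
    have g2 := gS_ne_im χ hs'
    have g3 : (Nc χ : ℂ) ^ (s / 2) ≠ 0 := by
      rw [Ne, cpow_eq_zero_iff]
      exact fun h => hN h.1
    rw [h3]
    field_simp
    linear_combination h1
  have hcont1 : Continuous fun s : ℂ => (gS χ (1 - s))⁻¹ * L s := by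
    have h1 : Continuous fun s : ℂ => (gS χ (1 - s))⁻¹ :=
      (gS_inv_diff' χ).continuous.comp (continuous_const.sub continuous_id)
    exact h1.mul hL.continuous
  have hcont2 : Continuous fun s : ℂ =>
      ε * (Nc χ : ℂ) ^ (1 / 2 - s) * ((gS χ s)⁻¹ * cj L (1 - s)) := by
    have h1 : Continuous fun s : ℂ => (Nc χ : ℂ) ^ (1 / 2 - s) :=
      (continuous_const.sub continuous_id).const_cpow (Or.inl hN)
    have h2 : Continuous fun s : ℂ => cj L (1 - s) :=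
      (cj_diff hL).continuous.comp (continuous_const.sub continuous_id)
    exact (continuous_const.mul h1).mul ((gS_inv_diff' χ).continuous.mul h2)
  have h4 := Continuous.ext_on dense_im hcont1 hcont2 key
  intro s
  have h5 := congrFun h4 s
  rw [h5]
  unfold cj
  rw [map_sub, map_one]

/-! ### Growth -/

lemma exp_bd {B C : ℝ} (hB : 0 ≤ B) (hC : 0 ≤ C) {x : ℝ} (hx : 0 ≤ x) :
    B + C * x ^ C ≤ Real.exp ((B + 2 * C) * (1 + x) ^ 1) := by
  rw [pow_one]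
  have h1 : x ^ C ≤ Real.exp (C * x) := by
    have h2 : x ≤ Real.exp x := by
      have := Real.add_one_le_exp x
      linarith
    calc x ^ C ≤ (Real.exp x) ^ C := Real.rpow_le_rpow hx h2 hC
      _ = Real.exp (C * x) := by rw [← Real.exp_mul, mul_comm]
  have h3 : 1 ≤ Real.exp (C * x) := Real.one_le_exp (by positivity)
  have h4 : B + C ≤ Real.exp (B + C) := by
    have := Real.add_one_le_exp (B + C)
    linarith
  calc B + C * x ^ C ≤ B * Real.exp (C * x) + C * Real.exp (C * x) := by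
        gcongr
        nlinarith
    _ = (B + C) * Real.exp (C * x) := by ring
    _ ≤ Real.exp (B + C) * Real.exp (C * x) := by gcongr
    _ = Real.exp (B + C + C * x) := (Real.exp_add _ _).symm
    _ ≤ _ := by
        refine Real.exp_le_exp.2 ?_
        nlinarith [mul_nonneg hB hx, mul_nonneg hC hx]

/-- The function is of finite order in vertical strips. -/
theorem order (hHE : T_HEc) (hGW : T_GWc) (χ : RCC K) {L : ℂ → ℂ} (hL : Differentiable ℂ L)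
    (h : ∀ s : ℂ, 1 < s.re → L s = Lc χ s) (σ₁ σ₂ : ℝ) : ∃ (A : ℝ) (k : ℕ), ∀ s : ℂ,
      σ₁ ≤ s.re → s.re ≤ σ₂ → ‖L s‖ ≤ Real.exp (A * (1 + ‖s‖) ^ k) := by
  set b : ℝ := max |σ₁| |σ₂| with hb
  have hre : ∀ s : ℂ, σ₁ ≤ s.re → s.re ≤ σ₂ → |s.re| ≤ b := by
    intro s h1 h2
    rw [abs_le]
    have h3 := neg_abs_le σ₁
    have h4 := le_abs_self σ₂
    have h5 := le_max_left |σ₁| |σ₂|
    have h6 := le_max_right |σ₁| |σ₂|
    constructor <;> linarith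
  obtain ⟨Z, Z', ε, hF⟩ := hHE K χ
  obtain ⟨Z₁, Z₁', ε₁, hF₁⟩ := hHE K χ.bar
  have e1 : ∀ s : ℂ, s.im ≠ 0 → Z s = L s :=
    eq_off hF.1.1 hL fun s hs => by rw [hF.1.2 s hs, h s hs]
  have e2 : ∀ s : ℂ, s.im ≠ 0 → Z₁ s = cj L s :=
    eq_off hF₁.1.1 (cj_diff hL) fun s hs => by rw [hF₁.1.2 s hs, cj_eq χ h s hs]
  obtain ⟨C₁, hC₁, h1⟩ := hGW K χ Z Z' ε hF b
  obtain ⟨C₂, hC₂, h2⟩ := hGW K χ.bar Z₁ Z₁' ε₁ hF₁ b
  obtain ⟨B, hB⟩ : ∃ B : ℝ, ∀ s ∈ (Icc (-b) b ×ℂ Icc (-1) 1), ‖L s‖ ≤ B :=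
    (isCompact_Icc.reProdIm isCompact_Icc).exists_bound_of_continuousOn
      hL.continuous.continuousOn
  set C : ℝ := max C₁ C₂ with hC
  have hC0 : 0 < C := lt_of_lt_of_le hC₁ (le_max_left _ _)
  have hpow : ∀ (c : ℝ), 0 < c → c ≤ C → ∀ y x : ℝ, 1 ≤ y → y ≤ x → c * y ^ c ≤ C * x ^ C := by
    intro c hc hcC y x hy hyx
    have g1 : y ^ c ≤ x ^ C := by
      calc y ^ c ≤ y ^ C := Real.rpow_le_rpow_of_exponent_le hy hcC
        _ ≤ x ^ C := Real.rpow_le_rpow (by linarith) hyx hC0.le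
    have g2 : 0 ≤ y ^ c := Real.rpow_nonneg (by linarith) _
    exact mul_le_mul hcC g1 g2 hC0.le
  refine ⟨|B| + 2 * C, 1, fun s hs1 hs2 => ?_⟩
  have hsre := hre s hs1 hs2
  refine le_trans ?_ (exp_bd (abs_nonneg B) hC0.le (norm_nonneg s))
  have hxC : 0 ≤ C * ‖s‖ ^ C := by positivity
  have hBa := abs_nonneg B
  rcases le_or_gt 1 s.im with h3 | h3
  · have h4 := h1 s hsre h3
    rw [e1 s (by intro h; rw [h] at h3; linarith)] at h4
    have h5 := hpow C₁ hC₁ (le_max_left _ _) s.im ‖s‖ h3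
      ((le_abs_self _).trans (abs_im_le_norm s))
    linarith
  · rcases le_or_gt s.im (-1) with h6 | h6
    · have h4 := h2 ((starRingEnd ℂ) s) (by rwa [conj_re]) (by rw [conj_im]; linarith)
      rw [e2 _ (by rw [conj_im]; intro h; linarith)] at h4
      unfold cj at h4
      rw [Complex.conj_conj, RCLike.norm_conj, conj_im] at h4
      have h5 := hpow C₂ hC₂ (le_max_right _ _) (-s.im) ‖s‖ (by linarith)
        ((neg_le_abs _).trans (abs_im_le_norm s))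
      linarith
    · have h4 := hB s ⟨⟨by linarith [(abs_le.1 hsre).1], (abs_le.1 hsre).2⟩, ⟨h6.le, h3.le⟩⟩
      have := le_abs_self B
      linarith

end

end Pool.Agent.H20.HKI
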