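import Pool.Agent.H20.HKI.Cont
import Pool.Agent.H23.DZ.Inst
import Pool.Agent.H61.Ray.Defs

/-!
# Primitive ray class characters of number fields define `L`-data
-/

set_option autoImplicit false

open NumberField NumberField.InfinitePlace Set Filter Complex
open scoped nonZeroDivisors ENNReal Topology

namespace Pool.Agent.H20.HKI

open Pool.Agent.H28.RC Pool.Agent.H25.HK Pool.Agent.H25
open Pool.Agent.H23.GLM Pool.Agent.H23.DZ

/-- A nontrivial primitive ray class character `χ` of a number field `K` of degree `m`. -/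
structure RayChar (m : ℕ) where
  /-- the number field -/
  K : Type
  [field : Field K]
  [numberField : NumberField K]
  finrank_eq : Module.finrank ℚ K = m
  /-- the primitive ray class character -/
  χ : RCC K
  nontrivial : ∃ I : Ideal (𝓞 K), χ.ψ I ≠ 0 ∧ χ.ψ I ≠ 1

attribute [instance] RayChar.field RayChar.numberField

/-! ### The archimedean parameters -/

/-- `a` parameters `0`, the others are `-1` -/
noncomputable def mu (m a : ℕ) (j : Fin m) : ℂ := if (j : ℕ) < a then 0 else -1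

lemma card_lt {m a : ℕ} (ha : a ≤ m) :
    (Finset.univ.filter fun j : Fin m => (j : ℕ) < a).card = a := by
  have h : (Finset.univ.filter fun j : Fin m => (j : ℕ) < a) =
      Finset.univ.image (Fin.castLE ha) := by
    ext j
    simp only [Finset.mem_filter, Finset.mem_univ, true_and, Finset.mem_image]
    constructor
    · intro h
      exact ⟨⟨j, h⟩, Fin.ext rfl⟩
    · rintro ⟨i, rfl⟩
      exact i.2
  rw [h, Finset.card_image_of_injective _ (Fin.castLE_injective ha), Finset.card_univ,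
    Fintype.card_fin]

lemma card_ge {m a : ℕ} (ha : a ≤ m) :
    (Finset.univ.filter fun j : Fin m => ¬ (j : ℕ) < a).card = m - a := by
  have h := Finset.card_filter_add_card_filter_not (s := (Finset.univ : Finset (Fin m)))
    (fun j : Fin m => (j : ℕ) < a)
  rw [card_lt ha, Finset.card_univ, Fintype.card_fin] at h
  omega

lemma arch_mu {m a : ℕ} (ha : a ≤ m) (s : ℂ) :
    archFactor (mu m a) s = Gammaℝ s ^ a * Gammaℝ (s + 1) ^ (m - a) := by
  unfold archFactor mu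
  have h : ∀ j : Fin m, Gammaℝ (s - if (j : ℕ) < a then 0 else -1) =
      if (j : ℕ) < a then Gammaℝ s else Gammaℝ (s + 1) := by
    intro j
    split_ifs
    · rw [sub_zero]
    · rw [sub_neg_eq_add]
  rw [Finset.prod_congr rfl fun j _ => h j, Finset.prod_ite, Finset.prod_const,
    Finset.prod_const, card_lt ha, card_ge ha]

lemma prod_mu {m a : ℕ} (ha : a ≤ m) : ∏ j, (1 + ‖mu m a j‖) = (2 : ℝ) ^ (m - a) := by
  unfold mu
  have h : ∀ j : Fin m, (1 + ‖(if (j : ℕ) < a then (0 : ℂ) else -1)‖ : ℝ) =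
      if (j : ℕ) < a then 1 else 2 := by
    intro j
    split_ifs
    · simp
    · rw [norm_neg, norm_one]; norm_num
  rw [Finset.prod_congr rfl fun j _ => h j, Finset.prod_ite, Finset.prod_const,
    Finset.prod_const, card_ge ha, one_pow, one_mul]

lemma mu_re (m a : ℕ) (j : Fin m) : (mu m a j).re ≤ 0 := by
  unfold mu
  split_ifs
  · simp
  · simp

section

variable {K : Type} [Field K] [NumberField K]

lemma card_le (S : Finset (RP K)) : S.card ≤ nrRealPlaces K := by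
  classical
  have h := Finset.card_le_univ S
  have h2 : Fintype.card (RP K) = nrRealPlaces K := by
    unfold nrRealPlaces
    exact Fintype.card_congr (Equiv.refl _)
  omega

lemma deg_eq (χ : RCC K) :
    (nrRealPlaces K - χ.S.card + nrComplexPlaces K) + (χ.S.card + nrComplexPlaces K) =
      Module.finrank ℚ K := by
  have h1 := card_add_two_mul_card_eq_rank K
  have h2 := card_le χ.S
  have h3 : nrRealPlaces K + 2 * nrComplexPlaces K = Module.finrank ℚ K := h1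
  omega

lemma gS_eq (χ : RCC K) (s : ℂ) : gS χ s =
    Gammaℝ s ^ (nrRealPlaces K - χ.S.card + nrComplexPlaces K) *
      Gammaℝ (s + 1) ^ (χ.S.card + nrComplexPlaces K) := by
  unfold gS
  rw [Gammaℂ_eq, mul_pow, pow_add, pow_add]
  ring

/-! ### The Euler product -/

/-- the value at `1 + ε` of the zeta function -/
noncomputable def zr (ε : ℝ) : ℝ := ∑' n : ℕ, 1 / (n : ℝ) ^ (1 + ε)

lemma term_le {h : ℕ → ℂ} (h0 : h 0 = 0) (hb : ∀ a, ‖h a‖ ≤ 1) {ε : ℝ} {s : ℂ}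
    (hs : 1 + ε ≤ s.re) (n : ℕ) : ‖h n * (n : ℂ) ^ (-s)‖ ≤ 1 / (n : ℝ) ^ (1 + ε) := by
  rcases Nat.eq_zero_or_pos n with rfl | hn
  · rw [h0, zero_mul, norm_zero]
    positivity
  · have hn1 : (1 : ℝ) ≤ n := by exact_mod_cast hn
    rw [norm_mul, norm_natCast_cpow_of_pos hn, neg_re, Real.rpow_neg (by positivity), one_div]
    have h1 : ((n : ℝ) ^ s.re)⁻¹ ≤ ((n : ℝ) ^ (1 + ε))⁻¹ := by
      gcongr
    have h2 : 0 ≤ ((n : ℝ) ^ s.re)⁻¹ := by positivity
    calc ‖h n‖ * ((n : ℝ) ^ s.re)⁻¹ ≤ 1 * ((n : ℝ) ^ s.re)⁻¹ := by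
          gcongr
          exact hb n
      _ ≤ _ := by rw [one_mul]; exact h1

lemma summable_zr {ε : ℝ} (hε : 0 < ε) : Summable fun n : ℕ => 1 / (n : ℝ) ^ (1 + ε) :=
  Real.summable_one_div_nat_rpow.2 (by linarith)

lemma zr_nonneg (ε : ℝ) : 0 ≤ zr ε := tsum_nonneg fun n => by positivity

lemma norm_Lc_le (hEP : T_EPc) (χ : RCC K) {ε : ℝ} (hε : 0 < ε) {s : ℂ} (hs : 1 + ε ≤ s.re) :
    ‖Lc χ s‖ ≤ zr ε ^ Module.finrank ℚ K := by
  obtain ⟨-, h, h0, h1, hm, hb, -, hL, -⟩ := hEP K χ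
  rw [hL s (by linarith), norm_prod]
  calc ∏ j, ‖∑' n : ℕ, h j n * (n : ℂ) ^ (-s)‖ ≤ ∏ _j : Fin (Module.finrank ℚ K), zr ε := by
        refine Finset.prod_le_prod (fun j _ => norm_nonneg _) fun j _ => ?_
        exact tsum_of_norm_bounded (summable_zr hε).hasSum fun n => term_le (h0 j) (hb j) hs n
    _ = _ := by rw [Finset.prod_const, Finset.card_univ, Fintype.card_fin]

/-- the Euler product -/
lemma euler (hEP : T_EPc) (χ : RCC K) : ∃ α : Nat.Primes → Fin (Module.finrank ℚ K) → ℂ,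
    (∀ p j, ‖α p j‖ ≤ 1) ∧ ∀ s : ℂ, 1 < s.re →
      (Summable fun p : Nat.Primes => ∑ j, ‖α p j‖ * (p : ℝ) ^ (-s.re)) ∧
      HasProd (fun p : Nat.Primes => ∏ j, (1 - α p j * (p : ℂ) ^ (-s))⁻¹) (Lc χ s) := by
  obtain ⟨-, h, h0, h1, hm, hb, -, hL, -⟩ := hEP K χ
  refine ⟨fun p j => h j p, fun p j => hb j p, fun s hs => ⟨?_, ?_⟩⟩
  · refine summable_sum fun j _ => ?_
    have h2 : Summable fun p : Nat.Primes => ((p : ℝ) ^ (-s.re)) := by
      have h3 : Summable fun n : ℕ => (n : ℝ) ^ (-s.re) :=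
        Real.summable_nat_rpow.2 (by linarith)
      exact h3.comp_injective Nat.Primes.coe_nat_injective
    refine Summable.of_nonneg_of_le (fun p => by positivity) (fun p => ?_) h2
    have h4 : 0 ≤ (p : ℝ) ^ (-s.re) := by positivity
    calc ‖h j p‖ * (p : ℝ) ^ (-s.re) ≤ 1 * (p : ℝ) ^ (-s.re) := by
          gcongr
          exact hb j p
      _ = _ := one_mul _
  · rw [hL s hs]
    refine hasProd_prod fun j _ => ?_
    obtain ⟨F, hF⟩ : ∃ F : ℕ →*₀ ℂ, ∀ n, F n = h j n * (n : ℂ) ^ (-s) := by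
      refine ⟨⟨⟨fun n => h j n * (n : ℂ) ^ (-s), ?_⟩, ?_, ?_⟩, fun n => rfl⟩
      · show h j 0 * ((0 : ℕ) : ℂ) ^ (-s) = 0
        rw [h0, zero_mul]
      · show h j 1 * ((1 : ℕ) : ℂ) ^ (-s) = 1
        rw [h1, Nat.cast_one, one_cpow, one_mul]
      · intro a b
        show h j (a * b) * ((a * b : ℕ) : ℂ) ^ (-s) =
          h j a * (a : ℂ) ^ (-s) * (h j b * (b : ℂ) ^ (-s))
        rw [hm, Nat.cast_mul, natCast_mul_natCast_cpow]
        ring
    have hsum : Summable fun n : ℕ => ‖F n‖ := by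
      refine Summable.of_nonneg_of_le (fun n => norm_nonneg _) (fun n => ?_)
        (summable_zr (ε := s.re - 1) (by linarith))
      rw [hF]
      exact term_le (h0 j) (hb j) (by linarith) n
    have h5 := EulerProduct.eulerProduct_completely_multiplicative_hasProd hsum
    have h6 : (fun p : Nat.Primes => (1 - F p)⁻¹) =
        fun p : Nat.Primes => (1 - h j p * (p : ℂ) ^ (-s))⁻¹ := by
      funext p
      rw [hF]
    have h7 : ∑' n : ℕ, F n = ∑' n : ℕ, h j n * (n : ℂ) ^ (-s) := tsum_congr hF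
    rwa [h6, h7] at h5

end

/-- The `L`-datum of a nontrivial primitive ray class character. -/
theorem exists_data (hHE : T_HEc) (hGW : T_GWc) (hEP : T_EPc)
    (hEN : ∀ (K : Type) [Field K] [NumberField K] (χ : RCC K),
      (∃ I : Ideal (𝓞 K), χ.ψ I ≠ 0 ∧ χ.ψ I ≠ 1) →
      ∃ L : ℂ → ℂ, Differentiable ℂ L ∧ ∀ s : ℂ, 1 < s.re → L s = Lc χ s)
    {m : ℕ} (π : RayChar m) : ∃ D : LData m, (∀ s : ℂ, 1 < s.re → D.L s = Lc π.χ s) ∧
      Differentiable ℂ D.L ∧ D.N = Nc π.χ ∧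
      D.C = Nc π.χ * 2 ^ (π.χ.S.card + nrComplexPlaces π.K) ∧ HasEuler D ∧
      ∀ j, (D.μ j).re ≤ 0 := by
  obtain ⟨K, hm, χ, hχ⟩ := π
  subst hm
  obtain ⟨L, hL, h1⟩ := hEN K χ hχ
  obtain ⟨ε, hε, hfe⟩ := fe hHE χ hL h1
  obtain ⟨a, ha⟩ : ∃ a : ℕ, a = nrRealPlaces K - χ.S.card + nrComplexPlaces K := ⟨_, rfl⟩
  obtain ⟨b, hb⟩ : ∃ b : ℕ, b = χ.S.card + nrComplexPlaces K := ⟨_, rfl⟩
  have hab : a + b = Module.finrank ℚ K := by
    rw [ha, hb]
    exact deg_eq χ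
  have ham : a ≤ Module.finrank ℚ K := by omega
  have hba : Module.finrank ℚ K - a = b := by omega
  have harch : ∀ s : ℂ, archFactor (mu (Module.finrank ℚ K) a) s = gS χ s := by
    intro s
    rw [arch_mu ham, hba, gS_eq, ha, hb]
  refine ⟨⟨Nc χ, Nc_ne χ, mu _ a, fun j => lt_of_le_of_lt (mu_re _ _ j) (by norm_num), L,
    Or.inl ⟨hL, order hHE hGW χ hL h1⟩, ε, hε, fun s hs1 hs2 => ?_⟩, h1, hL, rfl, ?_, ?_,
    fun j => mu_re _ _ j⟩
  · rw [harch] at hs1 hs2 ⊢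
    rw [harch]
    have h2 : (starRingEnd ℂ) (gS χ (1 - (starRingEnd ℂ) s)) = gS χ (1 - s) := by
      rw [← gS_conj, map_sub, map_one, Complex.conj_conj]
    have hs3 : gS χ (1 - s) ≠ 0 := by
      rw [← h2]
      exact (map_ne_zero (starRingEnd ℂ)).2 hs2
    rw [map_mul, h2]
    have h3 := hfe s
    have h4 : gS χ (1 - s) * (gS χ (1 - s))⁻¹ = 1 := mul_inv_cancel₀ hs3
    have h5 : gS χ s * (gS χ s)⁻¹ = 1 := mul_inv_cancel₀ hs1
    linear_combination gS χ s * gS χ (1 - s) * h3 - gS χ s * L s * h4 +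
      ε * (Nc χ : ℂ) ^ (1 / 2 - s) * gS χ (1 - s) *
        (starRingEnd ℂ) (L (1 - (starRingEnd ℂ) s)) * h5
  · show (Nc χ : ℝ) * ∏ j, (1 + ‖mu (Module.finrank ℚ K) a j‖) = _
    rw [prod_mu ham, hba, hb]
  · obtain ⟨α, hα1, hα2⟩ := euler hEP χ
    refine ⟨α, fun p j => (hα1 p j).trans ?_, fun s hs => ⟨(hα2 s hs).1, ?_⟩⟩
    · have hp : (1 : ℝ) ≤ p := by exact_mod_cast p.2.one_lt.le
      exact Real.one_le_rpow hp (by norm_num)
    · show HasProd _ (L s)
      rw [h1 s hs]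
      exact (hα2 s hs).2

/-- The family of all nontrivial primitive ray class characters of number fields of degree `m`. -/
theorem exists_family (hHE : T_HEc) (hGW : T_GWc) (hEP : T_EPc)
    (hEN : ∀ (K : Type) [Field K] [NumberField K] (χ : RCC K),
      (∃ I : Ideal (𝓞 K), χ.ψ I ≠ 0 ∧ χ.ψ I ≠ 1) →
      ∃ L : ℂ → ℂ, Differentiable ℂ L ∧ ∀ s : ℂ, 1 < s.re → L s = Lc χ s)
    (m : ℕ) : ∃ e : RayChar m → LData m,
      (∀ π : RayChar m, (∀ s : ℂ, 1 < s.re → (e π).L s = ∑' I : {I : Ideal (𝓞 π.K) // I ≠ ⊥},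
          π.χ.ψ I.1 * (Ideal.absNorm I.1 : ℂ) ^ (-s)) ∧
        Differentiable ℂ (e π).L ∧
        (e π).N = (discr π.K).natAbs * Ideal.absNorm π.χ.f ∧
        (e π).C = (e π).N * 2 ^ (π.χ.S.card + nrComplexPlaces π.K)) ∧
      ∀ S : Set (RayChar m), Molteni (e '' S) ∧ FarBounds (e '' S) ∧
        Pool.Agent.H61.Ray.HasGap (e '' S) (1 / 2) ∧ ∀ D ∈ e '' S, HasEuler D := by
  choose e he1 he2 he3 he4 he5 he6 using
    fun π : RayChar m => exists_data hHE hGW hEP (fun K _ _ χ h => hEN K χ h) π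
  have hEu : ∀ S : Set (RayChar m), ∀ D ∈ e '' S, HasEuler D := by
    rintro S _ ⟨π, -, rfl⟩
    exact he5 π
  refine ⟨e, fun π => ⟨he1 π, he2 π, he3 π, ?_⟩, fun S => ⟨?_, farBounds_of_euler (hEu S), ?_,
    hEu S⟩⟩
  · rw [he4 π, he3 π]
  · intro ε hε
    refine ⟨zr ε ^ m, ?_⟩
    rintro _ ⟨π, -, rfl⟩ s hs
    rw [he1 π s (by linarith)]
    have h1 := norm_Lc_le hEP π.χ hε hs
    rw [π.finrank_eq] at h1
    have h2 := (e π).one_le_C
    have h3 : (1 : ℝ) ≤ (e π).C ^ ε := Real.one_le_rpow h2 hε.le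
    have h4 : 0 ≤ zr ε ^ m := pow_nonneg (zr_nonneg ε) m
    nlinarith
  · rintro _ ⟨π, -, rfl⟩ j
    have := he6 π j
    linarith

end Pool.Agent.H20.HKI
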