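import Pool.Agent.H12.RC.H1
import Pool.Agent.H60.RC.MER

/-!
# The L-function of a nontrivial primitive ray class character is entire
-/

set_option autoImplicit false

open NumberField NumberField.InfinitePlace NumberField.Units
  NumberField.Units.dirichletUnitTheorem MeasureTheory Set Filter Complex
open scoped nonZeroDivisors ENNReal Topology

namespace Pool.Agent.H20.HKI

open Pool.Agent.H28.RC Pool.Agent.H25.HK Pool.Agent.H25 Pool.Agent.H12.RC
open Pool.Agent.H81.RC.HE (cK cK_ne LK LK_eq)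

section

variable {K : Type} [Field K] [NumberField K]

open scoped Classical in
/-- the constant terms add up to zero -/
lemma sum_k0 (hCM : T_CM) (hCP : T_CP) (hID : T_ID) (χ : RCC K)
    (hχ : ∃ I : Ideal (𝓞 K), χ.ψ I ≠ 0 ∧ χ.ψ I ≠ 1) {ι : Type} [Fintype ι] (M : ι → FI K)
    (hM0 : ∀ c, M c ≠ 0) (hM1 : ∀ I : Ideal (𝓞 K), I ≠ ⊥ → ∃! c, Pri K (M c) I) :
    ∑ c, k0 χ (M c) = 0 := by
  obtain ⟨I₀, h0, h1⟩ := hχ
  by_cases hS : χ.S = ∅
  · by_cases hf : χ.f = ⊤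
    · have h2 : ∀ c ∈ (Finset.univ : Finset ι), k0 χ (M c) =
          cf χ (M c) 0 * ((volume.real (Fd K) : ℝ) : ℂ) := fun c _ => by
        unfold k0
        rw [if_pos hS]
      rw [Finset.sum_congr rfl h2, ← Finset.sum_mul,
        sum_zero hCP hID χ hS hf h0 h1 M hM0 hM1, zero_mul]
    · refine Finset.sum_eq_zero fun c _ => ?_
      unfold k0
      rw [(hCM K χ (M c) (hM0 c)).2.2.2.2.2.1 hf, zero_mul, ite_self]
  · refine Finset.sum_eq_zero fun c _ => ?_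
    unfold k0
    exact if_neg hS

open scoped Classical in
/-- the residues at `1` add up to zero -/
lemma sum_eps (hCM : T_CM) (hCP : T_CP) (hID : T_ID) (hDU : T_DU) (χ : RCC K)
    (hχ : ∃ I : Ideal (𝓞 K), χ.ψ I ≠ 0 ∧ χ.ψ I ≠ 1) {ι : Type} [Fintype ι] (M : ι → FI K)
    (hM0 : ∀ c, M c ≠ 0) (hM2 : ∀ I : Ideal (𝓞 K), I ≠ ⊥ → ∃! c, Pri K (du' χ (M c)) I)
    (W : ℂ) (P : ι → WeakFEPair ℂ)
    (hPε : ∀ c, (P c).ε = (((cv K ((χ.f : FI K) * M c))⁻¹ : ℝ) : ℂ) * (-I) ^ χ.S.card * W)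
    (hPg0 : ∀ c, (P c).g₀ = k0 χ.bar (du' χ (M c))) :
    ∑ c, (((FractionalIdeal.absNorm (M c) : ℝ) : ℝ) : ℂ) ^ (1 : ℂ) * ((P c).ε * (P c).g₀) = 0 := by
  obtain ⟨I₀, h0, h1⟩ := hχ
  have hfM : ∀ c, (χ.f : FI K) * M c ≠ 0 := fun c => mul_ne_zero (coe_ne χ.f_ne) (hM0 c)
  have hM' : ∀ c, du' χ (M c) ≠ 0 := fun c => (hDU K _ (hfM c)).1
  have hN0 : ∀ c, 0 < (FractionalIdeal.absNorm (M c) : ℝ) := fun c =>
    (hDU K (M c) (hM0 c)).2.2.2.1
  by_cases hS : χ.S = ∅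
  · by_cases hf : χ.f = ⊤
    · have hbS : χ.bar.S = ∅ := hS
      have hbf : χ.bar.f = ⊤ := hf
      have hz := sum_zero hCP hID χ.bar hbS hbf (I₀ := I₀)
        (by
          intro h
          exact h0 ((map_eq_zero (starRingEnd ℂ)).1 h))
        (by
          intro h
          apply h1
          have h2 := congrArg (starRingEnd ℂ) (show (starRingEnd ℂ) (χ.ψ I₀) = 1 from h)
          rwa [Complex.conj_conj, map_one] at h2)
        (fun c => du' χ (M c)) hM' hM2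
      obtain ⟨D, hD⟩ : ∃ D : ℂ, D = ((Real.sqrt |(discr K : ℝ)|)⁻¹ : ℝ) *
        ((-I) ^ χ.S.card * W) * ((volume.real (Fd K) : ℝ) : ℂ) := ⟨_, rfl⟩
      have h2 : ∀ c ∈ (Finset.univ : Finset ι),
          (((FractionalIdeal.absNorm (M c) : ℝ) : ℝ) : ℂ) ^ (1 : ℂ) *
          ((P c).ε * (P c).g₀) = D * cf χ.bar (du' χ (M c)) 0 := by
        intro c _
        have h3 : (P c).g₀ = cf χ.bar (du' χ (M c)) 0 * ((volume.real (Fd K) : ℝ) : ℂ) := by
          rw [hPg0]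
          unfold k0
          rw [if_pos hbS]
        have h4 : (χ.f : FI K) * M c = M c := by
          rw [hf]
          simp only [FractionalIdeal.coeIdeal_top, one_mul]
        rw [h3, hPε, h4, cpow_one, hD]
        unfold cv
        have h6 : (((FractionalIdeal.absNorm (M c) : ℝ) : ℝ) : ℂ) ≠ 0 := by
          exact_mod_cast (hN0 c).ne'
        push_cast at h6 ⊢
        field_simp
      rw [Finset.sum_congr rfl h2, ← Finset.mul_sum, hz, mul_zero]
    · refine Finset.sum_eq_zero fun c _ => ?_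
      have h3 : (P c).g₀ = 0 := by
        rw [hPg0]
        unfold k0
        rw [(hCM K χ.bar (du' χ (M c)) (hM' c)).2.2.2.2.2.1 hf, zero_mul, ite_self]
      rw [h3, mul_zero, mul_zero]
  · refine Finset.sum_eq_zero fun c _ => ?_
    have h3 : (P c).g₀ = 0 := by
      rw [hPg0]
      unfold k0
      exact if_neg hS
    rw [h3, mul_zero, mul_zero]

end

/-- a power of a positive number as a function of the exponent, times a constant, summed -/
lemma diff_sum {ι : Type} [Fintype ι] (N : ι → ℝ) (hN : ∀ c, 0 < N c) (a : ι → ℂ) :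
    Differentiable ℂ fun s : ℂ => ∑ c, ((N c : ℝ) : ℂ) ^ s * a c := by
  intro s
  refine DifferentiableAt.fun_sum fun c _ => ?_
  have h1 : DifferentiableAt ℂ (fun s : ℂ => ((N c : ℝ) : ℂ) ^ s) s :=
    (differentiableAt_id).const_cpow (Or.inl (by exact_mod_cast (hN c).ne'))
  exact h1.mul_const _

lemma diff_dslope {F : ℂ → ℂ} (hF : Differentiable ℂ F) (c : ℂ) :
    Differentiable ℂ (dslope F c) := by
  rw [← differentiableOn_univ] at hF ⊢
  exact (Complex.differentiableOn_dslope univ_mem).2 hF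

open scoped Classical in
/-- The `L`-function of a nontrivial primitive ray class character is entire. -/
theorem entire (hWP : T_WPc) (hME : T_MEc) (hCS : T_CSc) (hEP : T_EPc) (hDU : T_DU) (hCW : T_CW)
    (hCM : T_CM) (hCP : T_CP) (hID : T_ID) (K : Type) [Field K] [NumberField K] (χ : RCC K)
    (hχ : ∃ I : Ideal (𝓞 K), χ.ψ I ≠ 0 ∧ χ.ψ I ≠ 1) :
    ∃ L : ℂ → ℂ, Differentiable ℂ L ∧ ∀ s : ℂ, 1 < s.re → L s = Lc χ s := by
  obtain ⟨W, hW⟩ := hCW K χ
  obtain ⟨ι, hι, M, hM0, hM1, hM2⟩ := hCS K χ.f χ.f_ne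
  choose P hPf hPg hPk hPε hPf0 hPg0 using fun c => hWP K χ W (M c) hW (hM0 c)
  have hN : ∀ c, 0 < (FractionalIdeal.absNorm (M c) : ℝ) := fun c =>
    (hDU K (M c) (hM0 c)).2.2.2.1
  obtain ⟨N, hNd⟩ : ∃ N : ι → ℝ, N = fun c => (FractionalIdeal.absNorm (M c) : ℝ) := ⟨_, rfl⟩
  have hN0 : ∀ c, 0 < N c := fun c => by rw [hNd]; exact hN c
  obtain ⟨F, hF⟩ : ∃ F : ℂ → ℂ, F = fun s => ∑ c, ((N c : ℝ) : ℂ) ^ s * ((P c).ε * (P c).g₀) :=
    ⟨_, rfl⟩
  obtain ⟨G, hG⟩ : ∃ G : ℂ → ℂ, G = fun s => ∑ c, ((N c : ℝ) : ℂ) ^ s * (P c).f₀ := ⟨_, rfl⟩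
  have hFd : Differentiable ℂ F := by
    rw [hF]
    exact diff_sum N hN0 _
  have hGd : Differentiable ℂ G := by
    rw [hG]
    exact diff_sum N hN0 _
  have hF1 : F 1 = 0 := by
    rw [hF, hNd]
    exact sum_eps hCM hCP hID hDU χ hχ M hM0 hM2 W P hPε hPg0
  have hG0 : G 0 = 0 := by
    have h1 : G 0 = ∑ c, k0 χ (M c) := by
      rw [hG]
      refine Finset.sum_congr rfl fun c _ => ?_
      rw [cpow_zero, one_mul, hPf0]
    rw [h1]
    exact sum_k0 hCM hCP hID χ hχ M hM0 hM1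
  refine ⟨fun s => (cK K)⁻¹ * (gS χ s)⁻¹ *
    (∑ c, ((N c : ℝ) : ℂ) ^ s * (P c).Λ₀ s - dslope G 0 s + dslope F 1 s), ?_, fun s hs => ?_⟩
  · refine ((gS_inv_differentiable χ).const_mul (cK K)⁻¹).mul
      ((Differentiable.sub ?_ (diff_dslope hGd 0)).add (diff_dslope hFd 1))
    intro s
    refine DifferentiableAt.fun_sum fun c _ => ?_
    have h1 : DifferentiableAt ℂ (fun s : ℂ => ((N c : ℝ) : ℂ) ^ s) s :=
      (differentiableAt_id).const_cpow (Or.inl (by exact_mod_cast (hN0 c).ne'))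
    exact h1.mul ((P c).differentiable_Λ₀ s)
  · have hs1 : s ≠ 1 := by
      rintro rfl
      simp at hs
    have hs0 : s ≠ 0 := by
      rintro rfl
      simp at hs
      linarith
    have h4 : dslope F 1 s = (∑ c, ((N c : ℝ) : ℂ) ^ s * ((P c).ε * (P c).g₀)) / (s - 1) := by
      rw [dslope_of_ne _ hs1, slope_def_field, hF1, sub_zero, hF]
    have h5 : dslope G 0 s = (∑ c, ((N c : ℝ) : ℂ) ^ s * (P c).f₀) / s := by
      rw [dslope_of_ne _ hs0, slope_def_field, hG0, sub_zero, sub_zero, hG]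
    have h6 : ∑ c, ((N c : ℝ) : ℂ) ^ s * (P c).Λ₀ s - dslope G 0 s + dslope F 1 s =
        LK N P s := by
      rw [h4, h5, Finset.sum_div, Finset.sum_div, ← Finset.sum_sub_distrib,
        ← Finset.sum_add_distrib]
      unfold LK
      refine Finset.sum_congr rfl fun c _ => ?_
      have h6 : (P c).Λ s = (P c).Λ₀ s - (1 / s) • (P c).f₀ -
          ((P c).ε / ((P c).k - s)) • (P c).g₀ := rfl
      rw [h6, hPk, smul_eq_mul, smul_eq_mul, ofReal_one]
      have h7 : (1 : ℂ) - s ≠ 0 := sub_ne_zero.2 (Ne.symm hs1)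
      have h8 : s - 1 ≠ 0 := sub_ne_zero.2 hs1
      have h9 : (P c).ε / (1 - s) * (P c).g₀ = -((P c).ε * (P c).g₀ / (s - 1)) := by
        rw [← neg_sub s 1, div_neg]
        ring
      rw [h9]
      ring
    show (cK K)⁻¹ * (gS χ s)⁻¹ *
      (∑ c, ((N c : ℝ) : ℂ) ^ s * (P c).Λ₀ s - dslope G 0 s + dslope F 1 s) = Lc χ s
    rw [h6, hNd, LK_eq hME hEP χ M hM0 hM1 hN P hPk hPf hPf0 s hs]
    have h1 := cK_ne K
    have h2 := gS_ne_of_re χ (s := s) (by linarith)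
    field_simp

end Pool.Agent.H20.HKI
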