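import Pool.Agent.H3.HK.GA
import Pool.Agent.H3.HK.GM
import Pool.Agent.H3.HK.LB
import Pool.Agent.H3.HK.TH
import Pool.Agent.H11.HK.BD
import Pool.Agent.H16.HK.GS
import Pool.Agent.H16.HK.PO
import Pool.Agent.H16.HK.PS
import Pool.Agent.H41.HK.BI
import Pool.Agent.H41.HK.G1
import Pool.Agent.H41.HK.JA
import Pool.Agent.H41.HK.UN
import Pool.Agent.H63.HK.DU
import Pool.Agent.H66.HK.FD
import Pool.Agent.H87.HK.UI
import Pool.Agent.H87.HK.YC
import Pool.Agent.H12.RC.GS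
import Pool.Agent.H16.RC.CW
import Pool.Agent.H19.RC.CM
import Pool.Agent.H19.RC.ME
import Pool.Agent.H19.RC.TH
import Pool.Agent.H24.RC.DC
import Pool.Agent.H24.RC.GI
import Pool.Agent.H28.RC.WP
import Pool.Agent.H33.RC.F1
import Pool.Agent.H42.RC.GA
import Pool.Agent.H48.RC.CN
import Pool.Agent.H48.RC.RX
import Pool.Agent.H50.RC.CV
import Pool.Agent.H68.RC.GM
import Pool.Agent.H68.RC.LB
import Pool.Agent.H68.RC.PO
import Pool.Agent.H69.RC.CI
import Pool.Agent.H71.RC.UI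
import Pool.Agent.H81.RC.EP
import Pool.Agent.H81.RC.HE
import Pool.Agent.H86.RC.CS
import Pool.Agent.H86.RC.CT
import Pool.Agent.H86.RC.GW
import Pool.Agent.H92.RC.CP
import Pool.Agent.H92.RC.ID
import Pool.Agent.H20.HKI.Ent
import Pool.Agent.H20.HKI.Data

/-!
# The family of ray class characters: assembly
-/

set_option autoImplicit false

open NumberField NumberField.InfinitePlace Complex

namespace Pool.Agent.H20.HKI

open Pool.Agent.H28.RC Pool.Agent.H25.HK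
open Pool.Agent.H23.GLM Pool.Agent.H23.DZ

theorem b_PO : T_PO :=
  Pool.Agent.H16.HK.po Pool.Agent.H16.HK.ps Pool.Agent.H3.HK.ga Pool.Agent.H16.HK.gs

theorem b_TH : T_TH :=
  Pool.Agent.H3.HK.th_fe b_PO Pool.Agent.H3.HK.gm Pool.Agent.H3.HK.lb

theorem b_YC : T_YC := Pool.Agent.H87.HK.yc_main

theorem b_UI : T_UI := Pool.Agent.H87.HK.ui b_YC

theorem b_DU : T_DU := Pool.Agent.H63.HK.du

theorem d_ID : T_ID := Pool.Agent.H92.RC.pf_ID

theorem d_CM : T_CM := Pool.Agent.H19.RC.pf_CM d_ID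

theorem d_CP : T_CP := Pool.Agent.H92.RC.pf_CP d_ID d_CM

theorem d_RX : T_RX := Pool.Agent.H48.RC.pf_RX

theorem d_PO : T_POc :=
  Pool.Agent.H68.RC.pf_PO Pool.Agent.H16.HK.ps
    (Pool.Agent.H42.RC.pf_GA Pool.Agent.H33.RC.pf_F1) Pool.Agent.H12.RC.pf_GS

theorem d_SM : T_SMc := pf_SM b_TH

theorem d_TH : T_THc :=
  Pool.Agent.H19.RC.pf_TH d_PO (Pool.Agent.H68.RC.pf_GM Pool.Agent.H3.HK.gm)
    (Pool.Agent.H68.RC.pf_LB Pool.Agent.H3.HK.lb) d_SM

theorem d_CI : T_CI := Pool.Agent.H69.RC.pf_CI d_ID d_CM d_CP b_DU d_RX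

theorem d_CV : T_CV := Pool.Agent.H50.RC.pf_CV d_ID d_CM d_CP b_DU

theorem d_CW : T_CW := Pool.Agent.H16.RC.pf_CW d_ID d_CM d_CP d_CV d_CI d_RX b_DU

theorem d_CN : T_CN := Pool.Agent.H48.RC.pf_CN d_ID d_CM d_CP d_RX b_DU d_CW

theorem d_UI : T_UIc := Pool.Agent.H71.RC.pf_UI b_YC b_UI d_CM

theorem d_CT : T_CTc := Pool.Agent.H86.RC.pf_CT b_TH

theorem d_DC : T_DCc := Pool.Agent.H24.RC.pf_DC b_TH b_YC Pool.Agent.H66.HK.fd

theorem d_GI : T_GIc :=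
  Pool.Agent.H24.RC.pf_GI Pool.Agent.H41.HK.ja Pool.Agent.H41.HK.g1 b_YC

theorem d_EP : T_EPc := Pool.Agent.H81.RC.ep

theorem d_ME : T_MEc :=
  Pool.Agent.H19.RC.pf_ME Pool.Agent.H41.HK.bi Pool.Agent.H41.HK.un d_GI Pool.Agent.H66.HK.fd
    d_SM d_EP d_CT b_YC b_UI d_UI d_CM d_ID

theorem d_CS : T_CSc := Pool.Agent.H86.RC.pf_CS b_DU

theorem d_GW : T_GWc := Pool.Agent.H86.RC.pf_GW d_EP

theorem d_WP : T_WPc :=
  pf_WP d_TH d_UI Pool.Agent.H66.HK.fd d_CT d_DC b_DU b_YC d_CM d_CP d_CN d_RX d_ID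

/-- Hecke's functional equation -/
theorem d_HE : T_HEc :=
  Pool.Agent.H81.RC.pf_HE d_WP d_ME d_CS d_EP b_DU d_CW d_CN Pool.Agent.H11.HK.bd

/-- The `L`-function of a nontrivial primitive ray class character is entire. -/
theorem entire_proved (K : Type) [Field K] [NumberField K] (χ : RCC K)
    (hχ : ∃ I : Ideal (𝓞 K), χ.ψ I ≠ 0 ∧ χ.ψ I ≠ 1) :
    ∃ L : ℂ → ℂ, Differentiable ℂ L ∧ ∀ s : ℂ, 1 < s.re → L s = Lc χ s :=
  entire d_WP d_ME d_CS d_EP b_DU d_CW d_CM d_CP d_ID K χ hχ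

/-- The nontrivial primitive ray class characters of number fields of degree `m` define `L`-data of
degree `m`; every set of them has all the properties which are assumed in the theorems on the
Grand Lindelof Hypothesis. -/
theorem family (m : ℕ) : ∃ e : RayChar m → LData m,
    (∀ π : RayChar m, (∀ s : ℂ, 1 < s.re → (e π).L s = ∑' I : {I : Ideal (𝓞 π.K) // I ≠ ⊥},
        π.χ.ψ I.1 * (Ideal.absNorm I.1 : ℂ) ^ (-s)) ∧
      Differentiable ℂ (e π).L ∧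
      (e π).N = (discr π.K).natAbs * Ideal.absNorm π.χ.f ∧
      (e π).C = (e π).N * 2 ^ (π.χ.S.card + nrComplexPlaces π.K)) ∧
    ∀ S : Set (RayChar m), Molteni (e '' S) ∧ FarBounds (e '' S) ∧
      Pool.Agent.H61.Ray.HasGap (e '' S) (1 / 2) ∧ ∀ D ∈ e '' S, HasEuler D :=
  exists_family d_HE d_GW d_EP entire_proved m

end Pool.Agent.H20.HKI
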